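import Mathlib

namespace Pool.Agent.Results.MP_742028_co.RobInfZero

open SimpleGraph

/-- `K` is a subgraph of `G` isomorphic to `H` all of whose edges get one colour under `c`. -/
def MonoCopy {V W : Type} {r : ℕ} (H : SimpleGraph W) (G : SimpleGraph V)
    (c : Sym2 V → Fin r) (K : G.Subgraph) : Prop :=
  Nonempty (H ≃g K.coe) ∧ ∃ i : Fin r, ∀ e ∈ K.edgeSet, c e = i

/-- Every `r`-colouring of `G` has a monochromatic copy of `H`. -/
def Arrows {V W : Type} (r : ℕ) (G : SimpleGraph V) (H : SimpleGraph W) : Prop :=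
  ∀ c : Sym2 V → Fin r, ∃ K : G.Subgraph, MonoCopy H G c K

/-- The `r`-multiplicity: least number of monochromatic copies over all `r`-colourings. -/
noncomputable def mult {V W : Type} (r : ℕ) (H : SimpleGraph W) (G : SimpleGraph V) : ℕ :=
  sInf {m : ℕ | ∃ c : Sym2 V → Fin r, m = {K : G.Subgraph | MonoCopy H G c K}.ncard}

/-- The Ramsey `r`-robustness: multiplicity over the number of copies. -/
noncomputable def rob {V W : Type} [Fintype V] (r : ℕ) (H : SimpleGraph W) (G : SimpleGraph V) :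
    ℝ :=
  (mult r H G : ℝ) / (G.copyCount H : ℝ)

/-- `G` is `r`-Ramsey-minimal for `H`. -/
def RamseyMinimal {V W : Type} (r : ℕ) (H : SimpleGraph W) (G : SimpleGraph V) : Prop :=
  Arrows r G H ∧ ∀ K : G.Subgraph, K ≠ ⊤ → ¬ Arrows r K.coe H

/-- There are infinitely many `r`-Ramsey-minimal graphs for `H` up to isomorphism. -/
def RamseyInfinite {W : Type} (r : ℕ) (H : SimpleGraph W) : Prop :=
  ¬ ∃ S : Set (Σ n : ℕ, SimpleGraph (Fin n)), S.Finite ∧
    ∀ (n : ℕ) (G : SimpleGraph (Fin n)), RamseyMinimal r H G → ∃ p ∈ S, Nonempty (G ≃g p.2)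

theorem mono_data {V W : Type} {r : ℕ} {H : SimpleGraph W} {G : SimpleGraph V}
    {c : Sym2 V → Fin r} {K : G.Subgraph} (h : MonoCopy H G c K) :
    ∃ (f : W → V) (i : Fin r), Function.Injective f ∧ (∀ a, f a ∈ K.verts) ∧
      ∀ a b, H.Adj a b → K.Adj (f a) (f b) ∧ c s(f a, f b) = i := by
  obtain ⟨⟨φ⟩, i, hi⟩ := h
  refine ⟨fun a => (φ a).1, i, ?_, fun a => (φ a).2, ?_⟩
  · intro a b hab
    exact φ.injective (Subtype.ext hab)
  · intro a b hab
    have h1 : K.coe.Adj (φ a) (φ b) := φ.map_adj_iff.2 hab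
    have h2 : K.Adj (φ a).1 (φ b).1 := h1
    exact ⟨h2, hi _ h2⟩

theorem mono_of_data {V W : Type} {r : ℕ} {H : SimpleGraph W} {G : SimpleGraph V}
    {c : Sym2 V → Fin r} (f : W → V) (i : Fin r) (hf : Function.Injective f)
    (h : ∀ a b, H.Adj a b → G.Adj (f a) (f b) ∧ c s(f a, f b) = i) :
    ∃ K : G.Subgraph, MonoCopy H G c K := by
  let φ : H.Copy G := ⟨⟨f, fun {a b} hab => (h a b hab).1⟩, hf⟩
  refine ⟨φ.toSubgraph, ⟨φ.isoToSubgraph⟩, i, ?_⟩
  intro e he
  induction e using Sym2.ind with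
  | _ x y =>
    rw [Subgraph.mem_edgeSet] at he
    obtain ⟨a, b, hab, rfl, rfl⟩ := he
    exact (h a b hab).2

/-- A colouring of `G` avoiding monochromatic copies inside a non-arrowing subgraph. -/
theorem exists_colouring {V W : Type} {r : ℕ} (hr : 1 ≤ r) {H : SimpleGraph W}
    {G : SimpleGraph V} (K : G.Subgraph) (hK : ¬ Arrows r K.coe H) :
    ∃ c : Sym2 V → Fin r, ∀ (f : W → V) (i : Fin r), Function.Injective f →
      (∀ a, f a ∈ K.verts) →
      (∀ a b, H.Adj a b → K.Adj (f a) (f b) ∧ c s(f a, f b) = i) → False := by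
  classical
  unfold Arrows at hK
  push Not at hK
  obtain ⟨c', hc'⟩ := hK
  have hinj : Function.Injective (Sym2.map (Subtype.val : K.verts → V)) :=
    Sym2.map.injective Subtype.val_injective
  refine ⟨Function.extend (Sym2.map (Subtype.val : K.verts → V)) c' (fun _ => ⟨0, hr⟩), ?_⟩
  intro f i hf hv h
  obtain ⟨L, hL⟩ := mono_of_data (H := H) (G := K.coe) (c := c') (fun a => ⟨f a, hv a⟩) i
    (fun a b hab => hf (congrArg Subtype.val hab)) (by
      intro a b hab
      refine ⟨(h a b hab).1, ?_⟩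
      have := (h a b hab).2
      have e1 : s(f a, f b) = Sym2.map (Subtype.val : K.verts → V)
          s(⟨f a, hv a⟩, ⟨f b, hv b⟩) := by simp
      rw [e1, hinj.extend_apply] at this
      exact this)
  exact hc' L hL

theorem mult_le_edge {V W : Type} [Fintype V] {r : ℕ} (hr : 1 ≤ r) {H : SimpleGraph W}
    {G : SimpleGraph V} (hG : RamseyMinimal r H G) (e : Sym2 V) (he : e ∈ G.edgeSet) :
    mult r H G ≤ {K : G.Subgraph | Nonempty (H ≃g K.coe) ∧ e ∈ K.edgeSet}.ncard := by
  classical
  have hne : (⊤ : G.Subgraph).deleteEdges {e} ≠ ⊤ := by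
    intro h
    induction e using Sym2.ind with
    | _ x y =>
      have h1 : (⊤ : G.Subgraph).Adj x y := he
      rw [← h] at h1
      simp at h1
  obtain ⟨c, hc⟩ := exists_colouring hr _ (hG.2 _ hne)
  have h1 : mult r H G ≤ {K : G.Subgraph | MonoCopy H G c K}.ncard :=
    Nat.sInf_le ⟨c, rfl⟩
  refine h1.trans (Set.ncard_le_ncard ?_ (Set.toFinite _))
  intro K hK
  refine ⟨hK.1, ?_⟩
  by_contra hn
  obtain ⟨f, i, hf, hv, h⟩ := mono_data hK
  refine hc f i hf (fun a => by simp) ?_
  intro a b hab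
  refine ⟨?_, (h a b hab).2⟩
  simp only [Subgraph.deleteEdges_adj, Subgraph.top_adj, Set.mem_singleton_iff]
  refine ⟨(h a b hab).1.adj_sub, ?_⟩
  intro h2
  apply hn
  rw [← h2]
  exact (h a b hab).1

theorem copy_edges {V : Type} [Fintype V] {h : ℕ} {H : SimpleGraph (Fin h)}
    {G : SimpleGraph V} (K : G.Subgraph) (hK : Nonempty (H ≃g K.coe)) :
    K.edgeSet.ncard ≤ h * h := by
  obtain ⟨φ⟩ := hK
  have : K.edgeSet ⊆ (fun p : Fin h × Fin h => s((φ p.1).1, (φ p.2).1)) '' Set.univ := by
    intro e he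
    induction e using Sym2.ind with
    | _ x y =>
      rw [Subgraph.mem_edgeSet] at he
      refine ⟨(φ.symm ⟨x, K.edge_vert he⟩, φ.symm ⟨y, K.edge_vert he.symm⟩), trivial, ?_⟩
      simp
  refine (Set.ncard_le_ncard this (Set.toFinite _)).trans ?_
  refine (Set.ncard_image_le (Set.toFinite _)).trans ?_
  simp [Set.ncard_univ]

theorem mult_mul_le {V : Type} [Fintype V] {r h : ℕ} (hr : 1 ≤ r) {H : SimpleGraph (Fin h)}
    {G : SimpleGraph V} (hG : RamseyMinimal r H G) :
    mult r H G * G.edgeSet.ncard ≤ h * h * G.copyCount H := by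
  classical
  have key := Finset.card_mul_le_card_mul (s := G.edgeFinset)
    (t := (Finset.univ.filter (fun K : G.Subgraph => Nonempty (H ≃g K.coe))))
    (fun e K => e ∈ K.edgeSet) (m := mult r H G) (n := h * h) ?_ ?_
  · have e1 : G.edgeSet.ncard = G.edgeFinset.card := by
      rw [← Set.ncard_coe_finset, coe_edgeFinset]
    have e2 : G.copyCount H =
        (Finset.univ.filter (fun K : G.Subgraph => Nonempty (H ≃g K.coe))).card := by
      unfold copyCount
      convert rfl
    rw [e1, e2]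
    nlinarith [key]
  · intro e he
    refine (mult_le_edge hr hG e (by simpa using he)).trans ?_
    rw [← Set.ncard_coe_finset]
    apply le_of_eq
    congr 1
    ext K
    simp [Finset.bipartiteAbove]
  · intro K hK
    refine le_trans ?_ (copy_edges K (by simpa using hK))
    rw [← Set.ncard_coe_finset]
    refine Set.ncard_le_ncard ?_ (Set.toFinite _)
    intro e he
    simp [Finset.bipartiteBelow] at he
    exact he.2

theorem no_isolated {n r h : ℕ} (hr : 1 ≤ r) {H : SimpleGraph (Fin h)}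
    {G : SimpleGraph (Fin n)} (hG : RamseyMinimal r H G) (hn : h < n) (v : Fin n) :
    ∃ w, G.Adj v w := by
  classical
  by_contra hv
  push Not at hv
  have hne : (⊤ : G.Subgraph).deleteVerts {v} ≠ ⊤ := by
    intro h1
    have h2 : v ∈ (⊤ : G.Subgraph).verts := by simp
    rw [← h1] at h2
    simp at h2
  obtain ⟨c, hc⟩ := exists_colouring hr _ (hG.2 _ hne)
  obtain ⟨K, hK⟩ := hG.1 c
  obtain ⟨f, i, hf, -, hf2⟩ := mono_data hK
  have hns : ¬ Function.Surjective f := by
    intro hs
    have := Fintype.card_le_of_surjective f hs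
    simp at this
    omega
  unfold Function.Surjective at hns
  push Not at hns
  obtain ⟨w, hw⟩ := hns
  have hne' : ∀ a b, H.Adj a b → f a ≠ v := by
    intro a b hab h1
    have := (hf2 a b hab).1.adj_sub
    rw [h1] at this
    exact hv _ this
  by_cases hwv : w = v
  · refine hc f i hf (fun a => by simpa [← hwv] using hw a) ?_
    intro a b hab
    refine ⟨?_, (hf2 a b hab).2⟩
    simp [hne' a b hab, hne' b a hab.symm, (hf2 a b hab).1.adj_sub]
  · refine hc (fun a => if f a = v then w else f a) i ?_ ?_ ?_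
    · intro a b hab
      by_cases ha : f a = v <;> by_cases hb : f b = v <;> simp [ha, hb] at hab
      · exact hf (ha.trans hb.symm)
      · exact absurd hab.symm (hw b)
      · exact absurd hab (hw a)
      · exact hf hab
    · intro a
      by_cases ha : f a = v <;> simp [ha, hwv]
    · intro a b hab
      simp only [hne' a b hab, hne' b a hab.symm, if_false]
      refine ⟨?_, (hf2 a b hab).2⟩
      simp [hne' a b hab, hne' b a hab.symm, (hf2 a b hab).1.adj_sub]

theorem card_le_edges {n r h : ℕ} (hr : 1 ≤ r) {H : SimpleGraph (Fin h)}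
    {G : SimpleGraph (Fin n)} (hG : RamseyMinimal r H G) (hn : h < n) :
    n ≤ 2 * G.edgeSet.ncard := by
  classical
  have e1 : G.edgeSet.ncard = G.edgeFinset.card := by
    rw [← Set.ncard_coe_finset, coe_edgeFinset]
  rw [e1, ← G.sum_degrees_eq_twice_card_edges]
  calc n = ∑ _v : Fin n, 1 := by simp
    _ ≤ _ := by
      refine Finset.sum_le_sum fun v _ => ?_
      exact (G.degree_pos_iff_exists_adj v).2 (no_isolated hr hG hn v)

theorem result : ∀ (r : ℕ), 2 ≤ r → ∀ (h : ℕ) (H : SimpleGraph (Fin h)), RamseyInfinite r H →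
    IsGLB {x : ℝ | ∃ (n : ℕ) (G : SimpleGraph (Fin n)), RamseyMinimal r H G ∧ x = rob r H G}
      0 := by
  intro r hr h H hH
  have hr1 : 1 ≤ r := by omega
  constructor
  · rintro x ⟨n, G, -, rfl⟩
    unfold rob
    positivity
  · intro b hb
    by_contra hb0
    push Not at hb0
    obtain ⟨N, hN⟩ := exists_nat_gt (2 * (h * h : ℝ) / b)
    have hex : ∃ (n : ℕ) (G : SimpleGraph (Fin n)), RamseyMinimal r H G ∧ N + h < n := by
      by_contra hcon
      push Not at hcon
      apply hH
      refine ⟨{p | p.1 ≤ N + h}, ?_, fun n G hG => ⟨⟨n, G⟩, hcon n G hG, ⟨Iso.refl⟩⟩⟩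
      have : {p : Σ n : ℕ, SimpleGraph (Fin n) | p.1 ≤ N + h} ⊆
          ⋃ n ∈ Set.Iic (N + h), Set.range (fun G : SimpleGraph (Fin n) =>
            (⟨n, G⟩ : Σ n : ℕ, SimpleGraph (Fin n))) := by
        rintro ⟨n, G⟩ hp
        simp only [Set.mem_iUnion]
        exact ⟨n, hp, G, rfl⟩
      exact Set.Finite.subset
        (Set.Finite.biUnion (Set.finite_Iic _) fun n _ => Set.finite_range _) this
    obtain ⟨n, G, hG, hn⟩ := hex
    have h1 : b ≤ rob r H G := hb ⟨n, G, hG, rfl⟩
    have h2 := mult_mul_le hr1 hG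
    have h3 := card_le_edges hr1 hG (by omega)
    unfold rob at h1
    have hc : (0 : ℝ) < G.copyCount H := by
      rcases Nat.eq_zero_or_pos (G.copyCount H) with h0 | h0
      · rw [h0] at h1
        simp at h1
        linarith
      · exact_mod_cast h0
    rw [le_div_iff₀ hc] at h1
    rw [div_lt_iff₀ hb0] at hN
    have h2' : (mult r H G : ℝ) * G.edgeSet.ncard ≤ h * h * G.copyCount H := by exact_mod_cast h2
    have h3' : (N : ℝ) ≤ 2 * G.edgeSet.ncard := by exact_mod_cast (by omega : N ≤ 2 * _)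
    have hE : (0 : ℝ) ≤ G.edgeSet.ncard := by positivity
    have h4 : b * G.copyCount H * G.edgeSet.ncard ≤ h * h * G.copyCount H :=
      (mul_le_mul_of_nonneg_right h1 hE).trans h2'
    have h5 : b * G.edgeSet.ncard ≤ h * h := by
      have : (b * G.edgeSet.ncard) * G.copyCount H ≤ h * h * G.copyCount H := by linarith
      exact le_of_mul_le_mul_right this hc
    nlinarith

end Pool.Agent.Results.MP_742028_co.RobInfZero
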